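import Pool.Agent.DRG.All
import Pool.Agent.DRT.Torus
import Pool.Agent.KAA.PI

set_option autoImplicit false

/-!
# Sub-de Rham-Betti structures of hyperelliptic Jacobians and hypergeometric motives

For all but `K T ^ (n - 1 / K)` of the tuples `N l ≤ T`, every sub-de Rham-Betti structure of every
`⊕ i, c i • (M_0 ⊕ V_1 ⊕ ⋯ ⊕ V_n) ^ ⊗ (a i)` is stable under the product of the groups `Sp (V_l)`
and `SO (V_l)`. Here `M_0` is any fixed structure and `V_l` is the `H¹` of the hyperelliptic curve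
`y² = h_l(x) (x - 1 / N_l)`, or a hypergeometric motive with maximally unipotent monodromy at the
point `c_l / N_l ^ e_l`. Without `M_0`, and with the powers of `2 π i` for the `c i`, it is stable
under the similitudes, the multiplier acting on the powers of `2 π i`.
-/

namespace Pool.Agent.Results.MP_5d33ca_ag.DeRhamBetti

open Finset

/-! ### Families -/

/-- `∏_{s < n} ∏_i (α_i + s + ε) / (1 + s + ε)`, a power series in `ε` -/
noncomputable def frob {m : ℕ} (α : Fin m → ℚ) (n : ℕ) : PowerSeries ℚ :=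
  ∏ s ∈ range n, ((∏ i, (PowerSeries.C (α i + s) + PowerSeries.X)) *
    ((PowerSeries.C ((s : ℚ) + 1) + PowerSeries.X) ^ m)⁻¹)

/-- the matrix `Y(z) = ((z d/dz)^a y_j(z))`, `a, j < m`, of Frobenius's solutions `y_j(z)` of
`θ^m y = z (θ + α_1) ⋯ (θ + α_m) y`: its entry is the coefficient of `ε ^ j` in
`∑_n (n + ε)^a c_n(ε) z^(n + ε)`, `c_n = frob α n` -/
noncomputable def Y {m : ℕ} (α : Fin m → ℚ) (z : ℂ) : Matrix (Fin m) (Fin m) ℂ :=
  Matrix.of fun a j => ∑ i ∈ range ((j : ℕ) + 1),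
    (∑' n : ℕ, ((PowerSeries.coeff i ((PowerSeries.C (n : ℚ) + PowerSeries.X) ^ (a : ℕ) *
      frob α n) : ℚ) : ℂ) * z ^ n) *
    (Complex.log z ^ ((j : ℕ) - i) / (((j : ℕ) - i).factorial : ℂ))

/-- families of motives over `ℚ`, with parameter `N` -/
inductive Family : Type
  /-- `H¹` of the curve `y² = h(x) (x - 1 / N)` of genus `g` -/
  | hyperelliptic (g : ℕ) (h : Polynomial ℚ)
  /-- the hypergeometric motive of rank `m`, with exponents `α` at infinity and `0` at `0`, at the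
  point `z = c / N ^ e` -/
  | hypergeometric (m : ℕ) (α : Fin m → ℚ) (c : ℚ) (e : ℕ)

/-- the rank -/
def Family.rank : Family → ℕ
  | .hyperelliptic g _ => 2 * g
  | .hypergeometric m _ _ _ => m

/-- the conditions: `h` is monic with `2 g ≥ 2` different real roots, not `0`; the exponents are
rational numbers in `(0, 1)` and `α ↦ 1 - α` permutes them, `m ≥ 2`, `c ≠ 0`, `e ≥ 1` -/
def Family.Admissible : Family → Prop
  | .hyperelliptic g h => 1 ≤ g ∧ h.coeff 0 ≠ 0 ∧ ∃ b : Fin (2 * g) → ℝ, StrictMono b ∧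
      h.map (algebraMap ℚ ℝ) = ∏ i, (Polynomial.X - Polynomial.C (b i))
  | .hypergeometric m α c e => 2 ≤ m ∧ (∀ i, 0 < α i ∧ α i < 1) ∧
      (∃ σ : Equiv.Perm (Fin m), ∀ i, α (σ i) = 1 - α i) ∧ c ≠ 0 ∧ 1 ≤ e

/-- the period matrix, with rows indexed by the cycles or flat sections and columns by the
differential forms: `∫ x^a dx / √P` over the intervals `[b_j, b_{j+1}]` between the branch points
(`√P = i^j √|P|` there, up to sign), and `y_j^{(a)}(c / N ^ e)`, where `|c| < N ^ e` -/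
def Family.IsPeriod : (F : Family) → ℕ → Matrix (Fin F.rank) (Fin F.rank) ℂ → Prop
  | .hyperelliptic g h, N, Φ => ∃ b : Fin (2 * g + 1) → ℝ, StrictMono b ∧
      h.map (algebraMap ℚ ℝ) * (Polynomial.X - Polynomial.C (1 / (N : ℝ))) =
        ∏ i, (Polynomial.X - Polynomial.C (b i)) ∧
      Φ = Matrix.of fun j a : Fin (2 * g) => Complex.I ^ (j : ℕ) *
        ((∫ x in (b j.castSucc)..(b j.succ), x ^ (a : ℕ) / Real.sqrt |∏ i, (x - b i)| : ℝ) : ℂ)
  | .hypergeometric _ α c e, N, Φ => |(c : ℝ)| < (N : ℝ) ^ e ∧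
      Φ = (Y α ((c : ℂ) / (N : ℂ) ^ e)).transpose

/-- the pairing of the cycles or flat sections -/
noncomputable def Family.pairing : (F : Family) → Matrix (Fin F.rank) (Fin F.rank) ℂ
  | .hyperelliptic g _ => Matrix.of fun i j : Fin (2 * g) => -(Complex.I * Real.pi) *
      ((if (j : ℕ) = i + 1 then 1 else 0) - (if (i : ℕ) = j + 1 then 1 else 0))
  | .hypergeometric m _ _ _ => Matrix.of fun i j : Fin m =>
      if (i : ℕ) + j + 1 = m then (-1) ^ (j : ℕ) else 0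

/-! ### Tensor constructions -/

/-- the index set of a basis of `V = M_0 ⊕ V_1 ⊕ ⋯ ⊕ V_n`, of ranks `k, m_1, …, m_n` -/
abbrev Index (k : ℕ) {n : ℕ} (m : Fin n → ℕ) : Type := Fin k ⊕ ((l : Fin n) × Fin (m l))

/-- the block diagonal matrix with blocks `Θ, Φ_1, …, Φ_n` -/
def diag {k n : ℕ} {m : Fin n → ℕ} (Θ : Matrix (Fin k) (Fin k) ℂ)
    (Φ : ∀ l, Matrix (Fin (m l)) (Fin (m l)) ℂ) : Matrix (Index k m) (Index k m) ℂ :=
  Matrix.fromBlocks Θ 0 0 (Matrix.blockDiagonal' Φ)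

/-- the index set of a basis of `⨁ i, V ^ ⊗ (a i)` -/
abbrev TensorIndex (I : Type) {r : ℕ} (a : Fin r → ℕ) : Type := (i : Fin r) × (Fin (a i) → I)

/-- the matrix of `⨁ i, c i • M ^ ⊗ (a i)` -/
def tensor {I : Type} {r : ℕ} (a : Fin r → ℕ) (c : Fin r → ℂ) (M : Matrix I I ℂ) :
    Matrix (TensorIndex I a) (TensorIndex I a) ℂ :=
  Matrix.blockDiagonal' fun i => c i • Matrix.of fun f g => ∏ t, M (f t) (g t)

/-- the complex span of a rational subspace -/
def complexification {J : Type} (W : Submodule ℚ (J → ℚ)) : Submodule ℂ (J → ℂ) :=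
  Submodule.span ℂ ((fun w : J → ℚ => fun j => (w j : ℂ)) '' (W : Set (J → ℚ)))

/-- the rational subspaces `W` (of the de Rham side) and `W'` (of the Betti side) are a
sub-structure of the de Rham-Betti structure with comparison matrix `M` -/
def IsSubstructure {J : Type} [Fintype J] (M : Matrix J J ℂ) (W W' : Submodule ℚ (J → ℚ)) : Prop :=
  (complexification W).map M.mulVecLin = complexification W'

/-- some sub-structure of some `⨁ i, c i • V ^ ⊗ (a i)`, where `V = M_0 ⊕ V_1 ⊕ ⋯ ⊕ V_n` has the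
comparison matrices `Θ, Φ_1, …, Φ_n`, is not stable under the product of the groups of the
matrices `s_l` of determinant `1` with `s_l E_l s_lᵀ = E_l` -/
def HasExtraSubstructure {k n : ℕ} {m : Fin n → ℕ} (Θ : Matrix (Fin k) (Fin k) ℂ)
    (Φ : ∀ l, Matrix (Fin (m l)) (Fin (m l)) ℂ) (E : ∀ l, Matrix (Fin (m l)) (Fin (m l)) ℚ) :
    Prop :=
  ∃ (r : ℕ) (a : Fin r → ℕ) (c : Fin r → ℂ)
    (W W' : Submodule ℚ (TensorIndex (Index k m) a → ℚ)),
    (∀ i, c i ≠ 0) ∧ IsSubstructure (tensor a c (diag Θ Φ)) W W' ∧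
    ∃ s : ∀ l, Matrix (Fin (m l)) (Fin (m l)) ℂ,
      (∀ l, (s l).det = 1 ∧ s l * (E l).map (fun x : ℚ => (x : ℂ)) * (s l).transpose =
        (E l).map (fun x : ℚ => (x : ℂ))) ∧
      (complexification W').map (tensor a 1 (diag 1 s)).mulVecLin ≠ complexification W'

/-- some sub-structure of some `⨁ i, V ^ ⊗ (a i) (b i)`, where `V = V_1 ⊕ ⋯ ⊕ V_n` has the
comparison matrices `Φ_1, …, Φ_n` and the twist `(b i)` multiplies by `(2 π i) ^ (b i)`, is not
stable under the group of the `(ν, s_1, …, s_n)`, `ν ≠ 0`, `s_l E_l s_lᵀ = ν ^ (w l) E_l`,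
`det s_l = ν ^ (w l m_l / 2)`, which acts on the `i`-th summand by `ν ^ (b i) s ^ ⊗ (a i)` -/
def HasExtraTateSubstructure {n : ℕ} {m : Fin n → ℕ}
    (Φ : ∀ l, Matrix (Fin (m l)) (Fin (m l)) ℂ) (E : ∀ l, Matrix (Fin (m l)) (Fin (m l)) ℚ)
    (w : Fin n → ℤ) : Prop :=
  ∃ (r : ℕ) (a : Fin r → ℕ) (b : Fin r → ℤ)
    (W W' : Submodule ℚ (TensorIndex (Index 0 m) a → ℚ)),
    IsSubstructure (tensor a (fun i => (2 * (Real.pi : ℂ) * Complex.I) ^ b i) (diag 1 Φ)) W W' ∧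
    ∃ (ν : ℂ) (s : ∀ l, Matrix (Fin (m l)) (Fin (m l)) ℂ), ν ≠ 0 ∧
      (∀ l, (s l).det = ν ^ (w l * (m l : ℤ) / 2) ∧
        s l * (E l).map (fun x : ℚ => (x : ℂ)) * (s l).transpose =
          ν ^ w l • (E l).map (fun x : ℚ => (x : ℂ))) ∧
      (complexification W').map (tensor a (fun i => ν ^ b i) (diag 1 s)).mulVecLin ≠
        complexification W'

section proof

open Pool.Agent

theorem Y_eq {m : ℕ} (α : Fin m → ℚ) (z : ℂ) : Y α z = MUM.Yv α z := by
  ext a j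
  unfold Y MUM.Yv
  rw [Matrix.mul_apply, Matrix.of_apply]
  have h1 : ∀ i : Fin m, MUM.Sv α z a i * MUM.eN m (Complex.log z) i j =
      if (i : ℕ) < (j : ℕ) + 1 then (Pool.Agent.HEP.evC (MUM.Sf α a i) z) *
        (Complex.log z ^ ((j : ℕ) - i) / (((j : ℕ) - i).factorial : ℂ)) else 0 := by
    intro i
    unfold MUM.Sv MUM.eN
    rw [Matrix.of_apply, Matrix.of_apply]
    by_cases hij : (i : ℕ) ≤ j
    · rw [if_pos hij, if_pos (by omega)]
    · rw [if_neg hij, if_neg (by omega), mul_zero]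
  rw [Finset.sum_congr rfl fun i _ => h1 i,
    Fin.sum_univ_eq_sum_range (fun i => if i < (j : ℕ) + 1 then
      (Pool.Agent.HEP.evC (MUM.Sf α a i) z) *
        (Complex.log z ^ ((j : ℕ) - i) / (((j : ℕ) - i).factorial : ℂ)) else 0) m,
    ← Finset.sum_filter]
  refine Finset.sum_congr ?_ fun i _ => ?_
  · ext i
    have := j.2
    simp only [Finset.mem_filter, Finset.mem_range]
    omega
  · unfold Pool.Agent.HEP.evC MUM.Sf
    simp only [PowerSeries.coeff_mk]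
    rfl

/-- the data of a family -/
theorem data (F : Family) (hF : F.Admissible) :
    1 ≤ F.rank ∧ (F.pairing.transpose = -F.pairing ∨
      (F.pairing.transpose = F.pairing ∧ 3 ≤ F.rank)) ∧
    ∃ (Y0 : ℕ → Set (MUM.Mat F.rank)) (B : ℕ → Matrix (Fin F.rank) (Fin F.rank) ℚ)
      (J D : MUM.Mat F.rank),
      DRG.PFam F.rank Y0 (fun N => {X | X.transpose * DRB.toC (B N) * X = J}) ∧
      (∀ N, ∀ X ∈ Y0 N, X.transpose * DRB.toC (B N) * X = J) ∧
      (∀ N Φ, F.IsPeriod N Φ → ∃ X ∈ Y0 N, Φ = (X * D).transpose) ∧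
      D.transpose * J * D = F.pairing := by
  cases F with
  | hyperelliptic g h =>
    obtain ⟨hg, h0, he⟩ := hF
    refine ⟨?_, Or.inl (DRG.FAM_.Jp_transpose (2 * g)), ?_⟩
    · show 1 ≤ 2 * g
      omega
    · obtain ⟨Y0, B, J, D, h1, h2, h3, h4⟩ := DRG.FAM_.hyp DRG.a_PHE DRG.p_RIE g h hg h0 he
      refine ⟨Y0, B, J, D, h1, h2, ?_, h4⟩
      rintro N Φ ⟨b, hb, hbe, rfl⟩
      exact h3 N b hb hbe
  | hypergeometric m α c e =>
    obtain ⟨hm, hα, hσ, hc, he⟩ := hF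
    have hs : MUM.Sym m α := ⟨hm, fun i => (hα i).1, fun i => (hα i).2, hσ⟩
    have hJ := DRG.FAM_.Jm_transpose m
    refine ⟨?_, ?_, ?_⟩
    · show 1 ≤ m
      omega
    · rcases Nat.even_or_odd m with hev | hodd
      · left
        rw [hev.neg_one_pow] at hJ
        show (MUM.Jm m).transpose = -MUM.Jm m
        rw [hJ, neg_smul, one_smul]
      · right
        rw [hodd.neg_one_pow] at hJ
        refine ⟨?_, ?_⟩
        · show (MUM.Jm m).transpose = MUM.Jm m
          rw [hJ, neg_neg, one_smul]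
        · show 3 ≤ m
          obtain ⟨k, hk⟩ := hodd
          omega
    · obtain ⟨Y0, B, J, D, h1, h2, h3, h4⟩ := DRG.FAM_.hgm DRG.a_PHG m α c e hs hc he
      refine ⟨Y0, B, J, D, h1, h2, ?_, h4⟩
      rintro N Φ ⟨hN, rfl⟩
      obtain ⟨X, hX, hXe⟩ := h3 N hN
      exact ⟨X, hX, by rw [Y_eq]; exact hXe⟩

theorem parts12 :
    (∀ (F : Family) (N : ℕ) (Φ : Matrix (Fin F.rank) (Fin F.rank) ℂ), F.Admissible →
      F.IsPeriod N Φ → ∃ Q : Matrix (Fin F.rank) (Fin F.rank) ℚ,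
        Φ * Q.map (fun x : ℚ => (x : ℂ)) * Φ.transpose = F.pairing) ∧
    ∀ (n k : ℕ) (F : Fin n → Family), (∀ l, (F l).Admissible) →
      ∃ K : ℕ, 1 ≤ K ∧ ∀ (T : ℕ) (Θ : Matrix (Fin k) (Fin k) ℂ)
        (C : ∀ l, Matrix (Fin (F l).rank) (Fin (F l).rank) ℂ) (κ : Fin n → ℂ)
        (E : ∀ l, Matrix (Fin (F l).rank) (Fin (F l).rank) ℚ), 1 ≤ T → IsUnit Θ →
        (∀ l, κ l ≠ 0 ∧ (E l).det ≠ 0 ∧ C l * (F l).pairing * (C l).transpose =
          κ l • (E l).map (fun x : ℚ => (x : ℂ))) →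
        (({N : Fin n → ℕ | (∀ l, 1 ≤ N l ∧ N l ≤ T) ∧
          ∃ Φ : ∀ l, Matrix (Fin (F l).rank) (Fin (F l).rank) ℂ,
            (∀ l, (F l).IsPeriod (N l) (Φ l)) ∧
            HasExtraSubstructure (m := fun l => (F l).rank) Θ (fun l => C l * Φ l) E}).ncard : ℝ) ≤
          K * (T : ℝ) ^ ((n : ℝ) - 1 / (K : ℝ)) := by
  refine ⟨fun F N Φ hF hΦ => ?_, fun n k F hF => ?_⟩
  · obtain ⟨-, -, Y0, B, J, D, -, h2, h3, h4⟩ := data F hF
    obtain ⟨X, hX, rfl⟩ := h3 N Φ hΦ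
    refine ⟨B N, ?_⟩
    have h5 := h2 N X hX
    rw [← h4, ← h5, Matrix.transpose_transpose, Matrix.transpose_mul]
    simp only [Matrix.mul_assoc]
  · choose hr hJ Y0 B J D h1 h2 h3 h4 using fun l => data (F l) (hF l)
    obtain ⟨K, hK, hmain⟩ := DRG.a_DRM n k (fun l => (F l).rank) Y0 B J hr h1 h2
    refine ⟨K, hK, fun T Θ C κ E hT hΘ hE => ?_⟩
    have hΘ' : Θ * Θ⁻¹ = 1 :=
      Matrix.mul_nonsing_inv _ ((Matrix.isUnit_iff_isUnit_det _).1 hΘ)
    have key := hmain T Θ Θ⁻¹ (fun l => D l * (C l).transpose) κ E hT hΘ' (fun l => ?_)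
    · refine (Nat.cast_le.2 (Set.ncard_le_ncard ?_ ?_)).trans key
      · rintro N ⟨hN, Φ, hΦ, r, a, c, W, W', hc, hW, h, hh, hne⟩
        refine ⟨hN, ?_⟩
        choose X hX hXe using fun l => h3 l (N l) (Φ l) (hΦ l)
        refine ⟨X, hX, ?_⟩
        refine ⟨r, a, c, W, W', hc, ?_, h, fun l => ⟨(hh l).2, (hh l).1⟩, hne⟩
        have e1 : (fun l => (X l * (D l * (C l).transpose)).transpose) = fun l => C l * Φ l := by
          funext l
          rw [hXe l, ← Matrix.mul_assoc, Matrix.transpose_mul, Matrix.transpose_transpose]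
        rw [e1]
        exact hW
      · refine (Finset.finite_toSet (Fintype.piFinset fun _ : Fin n => Finset.Icc 1 T)).subset ?_
        rintro N ⟨hN, -⟩
        exact Finset.mem_coe.2 (Fintype.mem_piFinset.2 fun l => Finset.mem_Icc.2 (hN l))
    · obtain ⟨hκ, hdet, hCE⟩ := hE l
      have hCE' : C l * (F l).pairing * (C l).transpose = κ l • DRB.toC (E l) := hCE
      have hu : IsUnit (DRB.toC (E l)) := by
        rw [Matrix.isUnit_iff_isUnit_det, isUnit_iff_ne_zero]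
        have e : (DRB.toC (E l)).det = (((E l).det : ℚ) : ℂ) :=
          ((Rat.castHom ℂ).map_det (E l)).symm
        rw [e]
        exact_mod_cast hdet
      refine ⟨hκ, ?_, ?_⟩
      · have e2 : κ l • (DRB.toC (E l)).transpose =
            C l * (F l).pairing.transpose * (C l).transpose := by
          rw [← Matrix.transpose_smul, ← hCE', Matrix.transpose_mul, Matrix.transpose_mul,
            Matrix.transpose_transpose, Matrix.mul_assoc]
        rcases hJ l with hJl | ⟨hJl, h3l⟩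
        · refine Or.inl ⟨?_, hu⟩
          rw [hJl, Matrix.mul_neg, Matrix.neg_mul, hCE', ← smul_neg] at e2
          exact smul_right_injective _ hκ e2
        · refine Or.inr ⟨?_, hu, h3l⟩
          rw [hJl, hCE'] at e2
          exact smul_right_injective _ hκ e2
      · rw [← hCE', ← h4 l, Matrix.transpose_mul, Matrix.transpose_transpose]
        simp only [Matrix.mul_assoc]

theorem transcendental_two_pi_I : Transcendental ℚ (2 * (Real.pi : ℂ) * Complex.I) := by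
  intro h
  obtain ⟨P, hP, hP2⟩ := (IsFractionRing.isAlgebraic_iff ℤ ℚ ℂ).2 h
  exact KAA.tPI P hP hP2

theorem part3 (h1 : ∀ (F : Family) (N : ℕ) (Φ : Matrix (Fin F.rank) (Fin F.rank) ℂ),
      F.Admissible → F.IsPeriod N Φ → ∃ Q : Matrix (Fin F.rank) (Fin F.rank) ℚ,
        Φ * Q.map (fun x : ℚ => (x : ℂ)) * Φ.transpose = F.pairing)
    (h2 : ∀ (n k : ℕ) (F : Fin n → Family), (∀ l, (F l).Admissible) →
      ∃ K : ℕ, 1 ≤ K ∧ ∀ (T : ℕ) (Θ : Matrix (Fin k) (Fin k) ℂ)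
        (C : ∀ l, Matrix (Fin (F l).rank) (Fin (F l).rank) ℂ) (κ : Fin n → ℂ)
        (E : ∀ l, Matrix (Fin (F l).rank) (Fin (F l).rank) ℚ), 1 ≤ T → IsUnit Θ →
        (∀ l, κ l ≠ 0 ∧ (E l).det ≠ 0 ∧ C l * (F l).pairing * (C l).transpose =
          κ l • (E l).map (fun x : ℚ => (x : ℂ))) →
        (({N : Fin n → ℕ | (∀ l, 1 ≤ N l ∧ N l ≤ T) ∧
          ∃ Φ : ∀ l, Matrix (Fin (F l).rank) (Fin (F l).rank) ℂ,
            (∀ l, (F l).IsPeriod (N l) (Φ l)) ∧
            HasExtraSubstructure (m := fun l => (F l).rank) Θ (fun l => C l * Φ l) E}).ncard : ℝ) ≤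
          K * (T : ℝ) ^ ((n : ℝ) - 1 / (K : ℝ))) :
    ∀ (n : ℕ) (F : Fin n → Family), (∀ l, (F l).Admissible) →
      ∃ K : ℕ, 1 ≤ K ∧ ∀ (T : ℕ) (C : ∀ l, Matrix (Fin (F l).rank) (Fin (F l).rank) ℂ)
        (w : Fin n → ℤ) (E : ∀ l, Matrix (Fin (F l).rank) (Fin (F l).rank) ℚ), 1 ≤ T →
        (∀ l, Even (w l * ((F l).rank : ℤ)) ∧ (E l).det ≠ 0 ∧
          C l * (F l).pairing * (C l).transpose =
            (2 * (Real.pi : ℂ) * Complex.I) ^ w l • (E l).map (fun x : ℚ => (x : ℂ))) →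
        (({N : Fin n → ℕ | (∀ l, 1 ≤ N l ∧ N l ≤ T) ∧
          ∃ Φ : ∀ l, Matrix (Fin (F l).rank) (Fin (F l).rank) ℂ,
            (∀ l, (F l).IsPeriod (N l) (Φ l)) ∧
            HasExtraTateSubstructure (m := fun l => (F l).rank) (fun l => C l * Φ l) E
              w}).ncard : ℝ) ≤
          K * (T : ℝ) ^ ((n : ℝ) - 1 / (K : ℝ)) := by
  intro n F hF
  obtain ⟨K, hK, hmain⟩ := h2 n 0 F hF
  refine ⟨K, hK, fun T C w E hT hE => ?_⟩
  have hpi : (2 * (Real.pi : ℂ) * Complex.I) ≠ 0 := Complex.two_pi_I_ne_zero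
  refine le_trans (Nat.cast_le.2 (Set.ncard_le_ncard ?_ ?_)) (hmain T 1 C
    (fun l => (2 * (Real.pi : ℂ) * Complex.I) ^ w l) E hT isUnit_one
    fun l => ⟨zpow_ne_zero _ hpi, (hE l).2.1, (hE l).2.2⟩)
  · rintro N ⟨hN, Φ, hΦ, r, a, b, W, W', hW, ν, s, hν, hs, hne⟩
    refine ⟨hN, Φ, hΦ, ?_⟩
    by_contra hno
    apply hne
    choose Q hQ using fun l => h1 (F l) (N l) (Φ l) (hF l) (hΦ l)
    have hT1 := DRT.torus (m := fun l => (F l).rank) Q E (fun l => (hE l).2.1) w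
      (fun l => w l * ((F l).rank : ℤ) / 2) (fun l => by
        obtain ⟨c, hc⟩ := (hE l).1
        rw [hc]
        omega) (2 * (Real.pi : ℂ) * Complex.I) transcendental_two_pi_I (fun l => C l * Φ l)
      (fun l => by
        have h3 := (hE l).2.2
        rw [← hQ l] at h3
        calc C l * Φ l * DRT.rc ℂ (Q l) * (C l * Φ l).transpose =
            C l * (Φ l * (Q l).map (fun x : ℚ => (x : ℂ)) * (Φ l).transpose) *
              (C l).transpose := by
              rw [Matrix.transpose_mul]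
              simp only [Matrix.mul_assoc]
              rfl
          _ = _ := h3) a b W W' hW ?_
    · exact DRT.stab_eq hT1 ν hν s hs
    · intro s' hs'
      have h5 : (complexification W').map (tensor a 1 (diag 1 s')).mulVecLin =
          complexification W' := by
        by_contra h6
        refine hno ⟨r, a, fun i => (2 * (Real.pi : ℂ) * Complex.I) ^ b i, W, W',
          fun i => zpow_ne_zero _ hpi, hW, s', fun l => ?_, h6⟩
        obtain ⟨h7, h8⟩ := hs' l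
        rw [one_zpow] at h7
        rw [one_zpow, one_smul] at h8
        exact ⟨h7, h8⟩
      show (complexification W').map (DRT.tens a (fun i => (1 : ℂ) ^ b i)
        (DRT.dg s')).mulVecLin ≤ complexification W'
      have h9 : (fun i => (1 : ℂ) ^ b i) = 1 := by
        funext i
        exact one_zpow _
      rw [h9]
      exact h5.le
  · refine (Finset.finite_toSet (Fintype.piFinset fun _ : Fin n => Finset.Icc 1 T)).subset ?_
    rintro N ⟨hN, -⟩
    exact Finset.mem_coe.2 (Fintype.mem_piFinset.2 fun l => Finset.mem_Icc.2 (hN l))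

end proof

theorem result :
    (∀ (n k : ℕ) (F : Fin n → Family), (∀ l, (F l).Admissible) →
      ∃ K : ℕ, 1 ≤ K ∧ ∀ (T : ℕ) (Θ : Matrix (Fin k) (Fin k) ℂ)
        (C : ∀ l, Matrix (Fin (F l).rank) (Fin (F l).rank) ℂ) (κ : Fin n → ℂ)
        (E : ∀ l, Matrix (Fin (F l).rank) (Fin (F l).rank) ℚ), 1 ≤ T → IsUnit Θ →
        (∀ l, κ l ≠ 0 ∧ (E l).det ≠ 0 ∧ C l * (F l).pairing * (C l).transpose =
          κ l • (E l).map (fun x : ℚ => (x : ℂ))) →
        (({N : Fin n → ℕ | (∀ l, 1 ≤ N l ∧ N l ≤ T) ∧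
          ∃ Φ : ∀ l, Matrix (Fin (F l).rank) (Fin (F l).rank) ℂ,
            (∀ l, (F l).IsPeriod (N l) (Φ l)) ∧
            HasExtraSubstructure (m := fun l => (F l).rank) Θ (fun l => C l * Φ l) E}).ncard : ℝ) ≤
          K * (T : ℝ) ^ ((n : ℝ) - 1 / (K : ℝ))) ∧
    ∀ (n : ℕ) (F : Fin n → Family), (∀ l, (F l).Admissible) →
      ∃ K : ℕ, 1 ≤ K ∧ ∀ (T : ℕ) (C : ∀ l, Matrix (Fin (F l).rank) (Fin (F l).rank) ℂ)
        (w : Fin n → ℤ) (E : ∀ l, Matrix (Fin (F l).rank) (Fin (F l).rank) ℚ), 1 ≤ T →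
        (∀ l, Even (w l * ((F l).rank : ℤ)) ∧ (E l).det ≠ 0 ∧
          C l * (F l).pairing * (C l).transpose =
            (2 * (Real.pi : ℂ) * Complex.I) ^ w l • (E l).map (fun x : ℚ => (x : ℂ))) →
        (({N : Fin n → ℕ | (∀ l, 1 ≤ N l ∧ N l ≤ T) ∧
          ∃ Φ : ∀ l, Matrix (Fin (F l).rank) (Fin (F l).rank) ℂ,
            (∀ l, (F l).IsPeriod (N l) (Φ l)) ∧
            HasExtraTateSubstructure (m := fun l => (F l).rank) (fun l => C l * Φ l) E
              w}).ncard : ℝ) ≤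
          K * (T : ℝ) ^ ((n : ℝ) - 1 / (K : ℝ)) :=
  ⟨parts12.2, part3 parts12.1 parts12.2⟩

end Pool.Agent.Results.MP_5d33ca_ag.DeRhamBetti
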