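import Pool.Agent.GFam.All2

set_option autoImplicit false

/-!
# Families of G-functions: all relations of bounded degree come from functional relations

For `n` Fuchsian systems of G-functions over `ℚ` and all but `K T ^ (n - 1 / K)` of the tuples
`N i ≤ T`, every polynomial relation of degree at most `D` with coefficients in `ℤ[θ]` between the
values at `1 / N i` and the numbers `log (N i)` is a consequence of the functional relations.
-/

namespace Pool.Agent.Results.MP_5d33ca_ag.GFunctionFamilies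

/-- G-functions over `ℚ`: the coefficients and their common denominators grow at most
geometrically -/
def IsGFunction (f : PowerSeries ℚ) : Prop :=
  ∃ C : ℕ, ∀ n : ℕ, |PowerSeries.coeff n f| ≤ (C : ℚ) ^ (n + 1) ∧
    ∃ d : ℕ, 0 < d ∧ d ≤ C ^ (n + 1) ∧ ∀ s, s ≤ n → ∃ x : ℤ, (d : ℚ) * PowerSeries.coeff s f = x

/-- `f` solves a system `T f' = A f` all of whose singular points, infinity included, are simple
poles -/
def SolvesFuchsianSystem {m : ℕ} (f : Fin m → PowerSeries ℚ) : Prop :=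
  ∃ (T : Polynomial ℚ) (A : Fin m → Fin m → Polynomial ℚ), Squarefree T ∧
    (∀ i j, (A i j).degree < T.degree) ∧
    ∀ i, (T : PowerSeries ℚ) * PowerSeries.derivative ℚ (f i) =
      ∑ j, (A i j : PowerSeries ℚ) * f j

/-- the sum of a power series at a real number -/
noncomputable def value (f : PowerSeries ℚ) (x : ℝ) : ℝ :=
  ∑' n : ℕ, ((PowerSeries.coeff n f : ℚ) : ℝ) * x ^ n

/-- the variables: one for the logarithm and one for each function, in each of the `n` families -/
abbrev Var {n : ℕ} (m : Fin n → ℕ) : Type := (i : Fin n) × Option (Fin (m i))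

/-- the numbers `log N_i` and `f_(i,l) (1 / N_i)` -/
noncomputable def values {n : ℕ} {m : Fin n → ℕ} (f : ∀ i, Fin (m i) → PowerSeries ℚ)
    (N : Fin n → ℕ) (p : Var m) : ℂ :=
  p.2.elim (Real.log (N p.1) : ℂ) (fun l => (value (f p.1 l) (1 / (N p.1 : ℝ)) : ℂ))

/-- the polynomials `R(1 / N_i, X)`, where `R(z, f_i) = 0` is a functional relation of the `i`-th
family over `ℚ[z]` -/
def SpecialisedRelations {n : ℕ} {m : Fin n → ℕ} (f : ∀ i, Fin (m i) → PowerSeries ℚ)
    (N : Fin n → ℕ) : Set (MvPolynomial (Var m) ℂ) :=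
  {Q | ∃ (i : Fin n) (R : MvPolynomial (Fin (m i)) (Polynomial ℚ)),
    MvPolynomial.eval₂ (Polynomial.coeToPowerSeries.ringHom) (f i) R = 0 ∧
    Q = MvPolynomial.eval₂ ((MvPolynomial.C.comp (algebraMap ℚ ℂ)).comp
      (Polynomial.evalRingHom (1 / (N i : ℚ)))) (fun l => MvPolynomial.X ⟨i, some l⟩) R}

/-- the values satisfy a polynomial relation of total degree at most `D` with coefficients in
`ℤ[θ]` that is not in the ideal generated by the specialised functional relations -/
def HasExtraRelation {n k : ℕ} {m : Fin n → ℕ} (D : ℕ) (θ : Fin k → ℂ)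
    (f : ∀ i, Fin (m i) → PowerSeries ℚ) (N : Fin n → ℕ) : Prop :=
  ∃ P : MvPolynomial (Fin k ⊕ Var m) ℤ, P.totalDegree ≤ D ∧
    MvPolynomial.aeval (Sum.elim θ (values f N)) P = 0 ∧
    MvPolynomial.aeval (Sum.elim (fun j => MvPolynomial.C (θ j)) MvPolynomial.X) P ∉
      Ideal.span (SpecialisedRelations f N)

theorem result (n k D : ℕ) (m : Fin n → ℕ) (f : ∀ i, Fin (m i) → PowerSeries ℚ)
    (hG : ∀ i l, IsGFunction (f i l)) (hF : ∀ i, SolvesFuchsianSystem (f i)) :
    ∃ K : ℕ, 1 ≤ K ∧ ∀ (T : ℕ) (θ : Fin k → ℂ), 1 ≤ T →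
      (({N : Fin n → ℕ | (∀ i, 1 ≤ N i ∧ N i ≤ T) ∧ HasExtraRelation D θ f N}).ncard : ℝ) ≤
        K * (T : ℝ) ^ ((n : ℝ) - 1 / (K : ℝ)) := by
  obtain ⟨K, hK, h⟩ := Pool.Agent.GFam.gfin n k D m f hG hF
  exact ⟨K, hK, fun T θ hT => h T hT θ⟩

end Pool.Agent.Results.MP_5d33ca_ag.GFunctionFamilies
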