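import Pool.Agent.HEP.All

set_option autoImplicit false

/-!
# Periods of hyperelliptic curves: relations of bounded degree

For all but `K T ^ (n - 1 / K)` of the tuples `N l ≤ T`, every polynomial relation of degree at
most `D` with coefficients in `ℤ[θ]` between the entries of the period matrices of the
hyperelliptic curves `y ^ 2 = h_l(x) (x - 1 / N_l)`, `l = 1, …, n`, of genus `g_l`, follows from
Riemann's bilinear relations.
-/

namespace Pool.Agent.Results.MP_5d33ca_ag.HyperellipticPeriods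

open Polynomial

/-- the entries `∫_{b_j}^{b_{j+1}} x^a dx / √|∏ (x - b_i)|`, `a, j < 2g`, of the period matrix of
the hyperelliptic curve `y² = ∏ (x - b_i)` of genus `g` with real branch points
`b_0 < ⋯ < b_{2g}` (the forms `x^a dx / y`, `a < 2g`, are a basis of its first de Rham cohomology
group) -/
noncomputable def period {g : ℕ} (b : Fin (2 * g + 1) → ℝ) (a j : Fin (2 * g)) : ℝ :=
  ∫ x in (b j.castSucc)..(b j.succ), x ^ (a : ℕ) / Real.sqrt |∏ i, (x - b i)|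

/-- Riemann's bilinear relations for the curve `y² = P(x)`, with `P` monic of degree `2g + 1`:
`∑_{a,c} ((a - c) / 2) P_{a+c+2} X_{aj} X_{ck}` is `(-1)^{j+1} π` if `k = j + 1`, and `0` if
`k > j + 1` -/
def Riemann {g : ℕ} (P : ℂ[X]) (X : Matrix (Fin (2 * g)) (Fin (2 * g)) ℂ) : Prop :=
  ∀ j k : Fin (2 * g), j < k → ∑ a : Fin (2 * g), ∑ c : Fin (2 * g),
    (((a : ℕ) : ℂ) - ((c : ℕ) : ℂ)) / 2 * P.coeff ((a : ℕ) + c + 2) * X a j * X c k =
      if (k : ℕ) = j + 1 then (-1) ^ ((j : ℕ) + 1) * (Real.pi : ℂ) else 0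

/-- the variables: the entries of `n` matrices of sizes `2 g_l` -/
abbrev Entries {n : ℕ} (g : Fin n → ℕ) : Type := (l : Fin n) × (Fin (2 * g l) × Fin (2 * g l))

/-- the period matrices of the curves `y² = h_l(x) (x - 1 / N_l)` (`b l` are the branch points of
the `l`-th curve) satisfy a polynomial relation `P = 0` of total degree at most `D` with
coefficients in `ℤ[θ]` that does not hold for all matrices satisfying Riemann's relations -/
def HasExtraRelation {n k : ℕ} {g : Fin n → ℕ} (D : ℕ) (θ : Fin k → ℂ) (h : Fin n → ℚ[X])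
    (N : Fin n → ℕ) : Prop :=
  ∃ (b : ∀ l, Fin (2 * g l + 1) → ℝ) (P : MvPolynomial (Fin k ⊕ Entries g) ℤ),
    (∀ l, StrictMono (b l) ∧
      (h l).map (algebraMap ℚ ℝ) * (X - C (1 / (N l : ℝ))) = ∏ i, (X - C (b l i))) ∧
    P.totalDegree ≤ D ∧
    MvPolynomial.aeval (Sum.elim θ (fun p => (period (b p.1) p.2.1 p.2.2 : ℂ))) P = 0 ∧
    ∃ Y : ∀ l, Matrix (Fin (2 * g l)) (Fin (2 * g l)) ℂ,
      (∀ l, Riemann ((h l).map (algebraMap ℚ ℂ) * (X - C (1 / (N l : ℂ)))) (Y l)) ∧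
      MvPolynomial.aeval (Sum.elim θ (fun p => Y p.1 p.2.1 p.2.2)) P ≠ 0

theorem result :
    (∀ (g : ℕ) (b : Fin (2 * g + 1) → ℝ), StrictMono b →
      Riemann (∏ i, (X - C (b i : ℂ))) (Matrix.of fun a j => (period b a j : ℂ))) ∧
    ∀ (n k D : ℕ) (g : Fin n → ℕ) (h : Fin n → ℚ[X]), (∀ l, 1 ≤ g l) →
      (∀ l, (h l).coeff 0 ≠ 0) →
      (∀ l, ∃ e : Fin (2 * g l) → ℝ, StrictMono e ∧
        (h l).map (algebraMap ℚ ℝ) = ∏ i, (X - C (e i))) →
      ∃ K : ℕ, 1 ≤ K ∧ ∀ (T : ℕ) (θ : Fin k → ℂ), 1 ≤ T →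
        (({N : Fin n → ℕ | (∀ l, 1 ≤ N l ∧ N l ≤ T) ∧
          HasExtraRelation (g := g) D θ h N}).ncard : ℝ) ≤
          K * (T : ℝ) ^ ((n : ℝ) - 1 / (K : ℝ)) := by
  refine ⟨fun g b hb => Pool.Agent.HEP.riemannRelations b hb, fun n k D g h hg h0 he => ?_⟩
  obtain ⟨K, hK, hmain⟩ := Pool.Agent.HEP.a_FINH n k D g h hg h0 he
  refine ⟨K, hK, fun T θ hT => (Nat.cast_le.2 (Set.ncard_le_ncard ?_ ?_)).trans (hmain T θ hT)⟩
  · rintro N ⟨hN, b, P, hb, hPD, hP0, Y, hY, hPY⟩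
    exact ⟨hN, _, P, ⟨b, hb, fun _ => rfl⟩, hPD, hP0, Y, hY, hPY⟩
  · refine (Finset.finite_toSet (Fintype.piFinset fun _ : Fin n => Finset.Icc 1 T)).subset ?_
    rintro N ⟨hN, -⟩
    exact Finset.mem_coe.2 (Fintype.mem_piFinset.2 fun l => Finset.mem_Icc.2 (hN l))

end Pool.Agent.Results.MP_5d33ca_ag.HyperellipticPeriods
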