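import Pool.Agent.MUM.All

set_option autoImplicit false

/-!
# Periods of hypergeometric families: relations of bounded degree

For all but `K T ^ (n - 1 / K)` of the tuples `N l ≤ T`, every polynomial relation of degree at
most `D` with coefficients in `ℤ[θ]` between the entries of the period matrices at
`z_l = c_l / N_l ^ e_l`, `l = 1, …, n`, of `n` hypergeometric equations
`θ^m y = z (θ + α_1) ⋯ (θ + α_m) y` with self-dual exponents follows from the bilinear relations.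
-/

namespace Pool.Agent.Results.MP_5d33ca_ag.HypergeometricPeriods

open Finset

/-- rational exponents in `(0, 1)` such that `α ↦ 1 - α` permutes them (with multiplicities) -/
def SelfDual {m : ℕ} (α : Fin m → ℚ) : Prop :=
  (∀ i, 0 < α i ∧ α i < 1) ∧ ∃ σ : Equiv.Perm (Fin m), ∀ i, α (σ i) = 1 - α i

/-- `∏_{s < n} ∏_i (α_i + s + ε) / (1 + s + ε)`, a power series in `ε` -/
noncomputable def frob {m : ℕ} (α : Fin m → ℚ) (n : ℕ) : PowerSeries ℚ :=
  ∏ s ∈ range n, ((∏ i, (PowerSeries.C (α i + s) + PowerSeries.X)) *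
    ((PowerSeries.C ((s : ℚ) + 1) + PowerSeries.X) ^ m)⁻¹)

/-- the matrix `Y(z) = ((z d/dz)^a y_j(z))`, `a, j < m`, of Frobenius's solutions `y_j(z)`: its
entry is the coefficient of `ε ^ j` in `∑_n (n + ε)^a c_n(ε) z^(n + ε)`, `c_n = frob α n` -/
noncomputable def Y {m : ℕ} (α : Fin m → ℚ) (z : ℂ) : Matrix (Fin m) (Fin m) ℂ :=
  Matrix.of fun a j => ∑ i ∈ range ((j : ℕ) + 1),
    (∑' n : ℕ, ((PowerSeries.coeff i ((PowerSeries.C (n : ℚ) + PowerSeries.X) ^ (a : ℕ) *
      frob α n) : ℚ) : ℂ) * z ^ n) *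
    (Complex.log z ^ ((j : ℕ) - i) / (((j : ℕ) - i).factorial : ℂ))

/-- `q_a`: the coefficients of `(x + α_1) ⋯ (x + α_m)` -/
noncomputable def q {m : ℕ} (α : Fin m → ℚ) (a : ℕ) : ℚ :=
  (∏ i, (Polynomial.X + Polynomial.C (α i))).coeff a

/-- the matrix of the pairing on the de Rham realisation:
`B(z)_{ab} = (-1)^b [a + b + 1 = m] - z ∑_{j < m - a} (-1)^j binom(j, b) q_{a + j + 1}` -/
noncomputable def B {m : ℕ} (α : Fin m → ℚ) (z : ℂ) : Matrix (Fin m) (Fin m) ℂ :=
  Matrix.of fun a b => (if (a : ℕ) + b + 1 = m then (-1) ^ (b : ℕ) else 0) +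
    z * ((-∑ j ∈ range (m - a), (-1) ^ j * (j.choose b : ℚ) * q α (a + j + 1) : ℚ) : ℂ)

/-- the matrix of the pairing of the Frobenius solutions: `(-1)^j [i + j + 1 = m]` -/
def J (m : ℕ) : Matrix (Fin m) (Fin m) ℂ :=
  Matrix.of fun i j => if (i : ℕ) + j + 1 = m then (-1) ^ (j : ℕ) else 0

/-- the variables: the entries of `n` matrices of sizes `m_l` -/
abbrev Entries {n : ℕ} (m : Fin n → ℕ) : Type := (l : Fin n) × (Fin (m l) × Fin (m l))

/-- the matrices `Y(z_l)`, `z_l = c_l / N_l ^ e_l`, satisfy a polynomial relation `P = 0` of total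
degree at most `D` with coefficients in `ℤ[θ]` that does not hold for all matrices `X_l` with
`X_lᵀ B(z_l) X_l = J` -/
def HasExtraRelation {n k : ℕ} {m : Fin n → ℕ} (D : ℕ) (θ : Fin k → ℂ)
    (α : ∀ l, Fin (m l) → ℚ) (c : Fin n → ℚ) (e : Fin n → ℕ) (N : Fin n → ℕ) : Prop :=
  ∃ P : MvPolynomial (Fin k ⊕ Entries m) ℤ, P.totalDegree ≤ D ∧
    MvPolynomial.aeval (Sum.elim θ (fun p : Entries m =>
      Y (α p.1) ((c p.1 : ℂ) / (N p.1 : ℂ) ^ e p.1) p.2.1 p.2.2)) P = 0 ∧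
    ∃ X : ∀ l, Matrix (Fin (m l)) (Fin (m l)) ℂ,
      (∀ l, (X l).transpose * B (α l) ((c l : ℂ) / (N l : ℂ) ^ e l) * X l = J (m l)) ∧
      MvPolynomial.aeval (Sum.elim θ (fun p : Entries m => X p.1 p.2.1 p.2.2)) P ≠ 0

section

open Pool.Agent.MUM

theorem sym_of {m : ℕ} {α : Fin m → ℚ} (hm : 2 ≤ m) (h : SelfDual α) : Sym m α :=
  ⟨hm, fun i => (h.1 i).1, fun i => (h.1 i).2, h.2⟩

theorem Y_eq {m : ℕ} (α : Fin m → ℚ) (z : ℂ) : Y α z = Yv α z := by
  ext a j
  unfold Y Yv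
  rw [Matrix.mul_apply, Matrix.of_apply]
  have h1 : ∀ i : Fin m, Sv α z a i * eN m (Complex.log z) i j =
      if (i : ℕ) < (j : ℕ) + 1 then (Pool.Agent.HEP.evC (Sf α a i) z) *
        (Complex.log z ^ ((j : ℕ) - i) / (((j : ℕ) - i).factorial : ℂ)) else 0 := by
    intro i
    unfold Sv eN
    rw [Matrix.of_apply, Matrix.of_apply]
    by_cases hij : (i : ℕ) ≤ j
    · rw [if_pos hij, if_pos (by omega)]
    · rw [if_neg hij, if_neg (by omega), mul_zero]
  rw [Finset.sum_congr rfl fun i _ => h1 i,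
    Fin.sum_univ_eq_sum_range (fun i => if i < (j : ℕ) + 1 then
      (Pool.Agent.HEP.evC (Sf α a i) z) *
        (Complex.log z ^ ((j : ℕ) - i) / (((j : ℕ) - i).factorial : ℂ)) else 0) m,
    ← Finset.sum_filter]
  refine Finset.sum_congr ?_ fun i _ => ?_
  · ext i
    have := j.2
    simp only [Finset.mem_filter, Finset.mem_range]
    omega
  · unfold Pool.Agent.HEP.evC Sf
    simp only [PowerSeries.coeff_mk]
    rfl

theorem B_eq {m : ℕ} (α : Fin m → ℚ) (z : ℂ) : B α z = Bz α z := rfl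

theorem J_eq (m : ℕ) : J m = Jm m := rfl

end


theorem result :
    (∀ (m : ℕ) (α : Fin m → ℚ), 2 ≤ m → SelfDual α → ∀ z : ℂ, ‖z‖ < 1 →
      (Y α z).transpose * B α z * Y α z = J m ∧
      (z ∈ Complex.slitPlane → ∃ Y' : Matrix (Fin m) (Fin m) ℂ,
        (∀ a j : Fin m, HasDerivAt (fun w => Y α w a j) (Y' a j) z) ∧
        (∀ a b j : Fin m, (b : ℕ) = a + 1 → z * Y' a j = Y α z b j) ∧
        ∀ a j : Fin m, (a : ℕ) + 1 = m →
          (1 - z) * (z * Y' a j) = z * ∑ b : Fin m, (q α b : ℂ) * Y α z b j)) ∧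
    ∀ (n k D : ℕ) (m : Fin n → ℕ) (α : ∀ l, Fin (m l) → ℚ) (c : Fin n → ℚ) (e : Fin n → ℕ),
      (∀ l, 2 ≤ m l) → (∀ l, SelfDual (α l)) → (∀ l, c l ≠ 0) → (∀ l, 1 ≤ e l) →
      ∃ K : ℕ, 1 ≤ K ∧ ∀ (T : ℕ) (θ : Fin k → ℂ), 1 ≤ T →
        (({N : Fin n → ℕ | (∀ l, 1 ≤ N l ∧ N l ≤ T) ∧
          HasExtraRelation (m := m) D θ α c e N}).ncard : ℝ) ≤
          K * (T : ℝ) ^ ((n : ℝ) - 1 / (K : ℝ)) := by
  refine ⟨fun m α hm hα z hz => ⟨?_, fun hs => ?_⟩, fun n k D m α c e hm hα hc he => ?_⟩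
  · rw [Y_eq, B_eq, J_eq]
    exact Pool.Agent.MUM.Yv_bil Pool.Agent.MUM.a_AN Pool.Agent.MUM.a_NJ α (sym_of hm hα) hz
  · obtain ⟨Y', hY', hE⟩ := Pool.Agent.MUM.Yv_ode Pool.Agent.MUM.a_AN Pool.Agent.MUM.a_NJ α
      (sym_of hm hα) hz hs
    have hz1 : 1 - z ≠ 0 := by
      intro h
      have : z = 1 := (sub_eq_zero.1 h).symm
      rw [this] at hz
      norm_num at hz
    have hE' : ∀ a j : Fin m, (z * (1 - z)) * Y' a j =
        (1 - z) * (∑ i : Fin m, Pool.Agent.MUM.Nm m a i * Y α z i j) +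
          z * ∑ i : Fin m, Pool.Agent.MUM.Em α a i * Y α z i j := by
      intro a j
      have h := congrFun (congrFun hE a) j
      rw [Matrix.smul_apply, smul_eq_mul, Matrix.add_mul, Matrix.add_apply, Matrix.smul_mul,
        Matrix.smul_mul, Matrix.smul_apply, Matrix.smul_apply, smul_eq_mul, smul_eq_mul,
        Matrix.mul_apply, Matrix.mul_apply] at h
      rw [h, Y_eq]
    refine ⟨Y', ?_, ?_, ?_⟩
    · intro a j
      simp only [Y_eq]
      exact hY' a j
    · intro a b j hab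
      have h := hE' a j
      have h1 : ∑ i : Fin m, Pool.Agent.MUM.Nm m a i * Y α z i j = Y α z b j := by
        rw [Finset.sum_eq_single b]
        · rw [Pool.Agent.MUM.Nm, Matrix.of_apply, if_pos hab, one_mul]
        · intro i _ hi
          rw [Pool.Agent.MUM.Nm, Matrix.of_apply, if_neg, zero_mul]
          intro h'
          exact hi (Fin.ext (h'.trans hab.symm))
        · intro h'
          exact absurd (Finset.mem_univ _) h'
      have h2 : ∑ i : Fin m, Pool.Agent.MUM.Em α a i * Y α z i j = 0 := by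
        refine Finset.sum_eq_zero fun i _ => ?_
        rw [Pool.Agent.MUM.Em, Matrix.of_apply, if_neg, zero_mul]
        have := b.2
        omega
      rw [h1, h2, mul_zero, add_zero] at h
      have h3 : (1 - z) * (z * Y' a j) = (1 - z) * Y α z b j := by
        rw [← h]
        ring
      exact mul_left_cancel₀ hz1 h3
    · intro a j ha
      have h := hE' a j
      have h1 : ∑ i : Fin m, Pool.Agent.MUM.Nm m a i * Y α z i j = 0 := by
        refine Finset.sum_eq_zero fun i _ => ?_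
        rw [Pool.Agent.MUM.Nm, Matrix.of_apply, if_neg, zero_mul]
        have := i.2
        omega
      have h2 : ∀ i : Fin m, Pool.Agent.MUM.Em α a i = (q α i : ℂ) := by
        intro i
        rw [Pool.Agent.MUM.Em, Matrix.of_apply, if_pos ha]
        rfl
      rw [h1, mul_zero, zero_add] at h
      simp only [h2] at h
      rw [← h]
      ring
  · obtain ⟨K, hK, hmain⟩ := Pool.Agent.MUM.a_FIN n k D m α c e
      (fun l => sym_of (hm l) (hα l)) hc he
    refine ⟨K, hK, fun T θ hT => (Nat.cast_le.2 (Set.ncard_le_ncard ?_ ?_)).trans (hmain T θ hT)⟩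
    · rintro N ⟨hN, P, hPD, hP0, X, hX, hPX⟩
      refine ⟨hN, P, hPD, ?_, X, hX, hPX⟩
      simp only [Y_eq] at hP0
      exact hP0
    · refine (Finset.finite_toSet (Fintype.piFinset fun _ : Fin n => Finset.Icc 1 T)).subset ?_
      rintro N ⟨hN, -⟩
      exact Finset.mem_coe.2 (Fintype.mem_piFinset.2 fun l => Finset.mem_Icc.2 (hN l))

end Pool.Agent.Results.MP_5d33ca_ag.HypergeometricPeriods
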